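import Pool.Agent.TH656.Bt.Red
import Pool.Agent.NPC.Dec

/-!
# Book thickness is NP-hard on graphs of bounded treewidth

The definitions (`HasBookEmbedding`, `bookThickness`) are in `TH656/Bt/Defs`, `Chordal` and
`treewidth` in `TH656/Bx/Defs`.

The reduction is from bin packing with numbers in unary (and, to begin with, from exact cover by
3-sets).  There are four hubs and many disjoint copies of a gadget.  By the pigeonhole principle one
of the copies lies between two walls (vertices adjacent to all hubs) such that each of the four
pages is used by exactly one hub there; so an edge of the copy on the page of the hub `c` passes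
over no vertex adjacent to the hub `c`.  In the copy a long path (the frame) is cut by separators
into the bins; the items are paths whose vertices have alternately two types; all gaps of the frame
are covered by edges of the frame, whose page allows only one of the two types.  Hence each edge of
an item passes over a vertex of the frame, different edges over different vertices, and no item
passes over a separator.  A vertex `z` adjacent to the whole copy, with its own page, keeps the
items inside the copy.
-/

set_option autoImplicit false

namespace Pool.Agent.Results.MP_cfb5a8_lc.BookThicknessHard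

open Pool.Agent.NPC Pool.Agent.H692R2 Pool.Agent.TH656.Bt
open Pool.Agent.TH656.Bx (treewidth)

/-- **Computing the book thickness is NP-hard on graphs of treewidth at most six.**
Every language in NP has a polynomial-time reduction `f` to graphs of treewidth at most `6` with
`x ∈ L ↔ bookThickness (f x) ≤ 4`; and if for some `k ≥ 6` a polynomial-time algorithm computes the
book thickness of the graphs of treewidth at most `k`, then every language in NP is in P. -/
theorem result :
    (∀ L : Set (List Bool), InNP L → ∃ f : List Bool → FinGraph, PolyTime (fun x => bits (f x)) ∧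
      ∀ x, treewidth (f x).graph ≤ 6 ∧ (x ∈ L ↔ bookThickness (f x).graph ≤ 4)) ∧
    ∀ k : ℕ, 6 ≤ k → (∃ A : List Bool → List Bool, PolyTime A ∧
        ∀ G : FinGraph, treewidth G.graph ≤ k → A (bits G) = bits (bookThickness G.graph)) →
      ∀ L : Set (List Bool), InNP L → InP L := by
  have h0 : ∀ L : Set (List Bool), InNP L → ∃ f : List Bool → FinGraph,
      PolyTime (fun x => bits (f x)) ∧
      ∀ x, treewidth (f x).graph ≤ 6 ∧ (x ∈ L ↔ bookThickness (f x).graph ≤ 4) := by
    intro L hL
    obtain ⟨f, hf, h1, h2⟩ := hard L hL
    exact ⟨f, PC.toPolyTime hf, fun x => ⟨h1 x, h2 x⟩⟩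
  refine ⟨h0, ?_⟩
  rintro k hk ⟨A, hA, hA'⟩ L hL
  obtain ⟨f, hf, hf'⟩ := h0 L hL
  have hg := NPC.Poly.optCases (o := fun y : List Bool => unbits ℕ y) (g := fun _ => false)
    (h := fun _ n => decide (n ≤ 4)) poly_unbits (NPC.Poly.const _)
    (NPC.Poly.decide_le (NPC.Poly.snd NPC.Poly.id) (NPC.Poly.const 4))
  have hF := H642R2.TMSim.polyTime_comp hA hf
  refine ⟨_, polyTime_test hF hg, fun x => ?_⟩
  rw [(hf' x).2, hA' _ ((hf' x).1.trans hk), unbits_bits]
  simp

end Pool.Agent.Results.MP_cfb5a8_lc.BookThicknessHard
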